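import Pool.Agent.Lib.MP_8d6ead_lc.Main

namespace Pool.Agent.Results.MP_8d6ead_lc.AETheoryUndecidable

open Pool.Agent.Lib.MP_8d6ead_lc

/-- For every computable field `F` and every computable vector space `V` over `F` of infinite
dimension with a dependence algorithm, the `∀∃` theory of the lattice `L*(V)` (c.e. subspaces of
`V` modulo finite dimension) in the language `{∧, ∨, 0, 1}` is undecidable. -/
theorem result (F V : Type) [Field F] [AddCommGroup V] [Module F V] [Primcodable F]
    [Primcodable V] [ComputableVectorSpace F V] (hdep : HasDependenceAlgorithm F V)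
    (hdim : ¬ FiniteDimensional F V) : ¬ AETheoryDecidable (LStar F V) :=
  undecidable hdep hdim

end Pool.Agent.Results.MP_8d6ead_lc.AETheoryUndecidable
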